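import Pool.Agent.U643.GP.Tw

/-!
# Kernels which are graph products whose vertex groups are permuted
-/

set_option autoImplicit false

namespace Pool.Agent.U643.GP

open Pool.Agent.Y110.FJ Q30.FJ
open Pool.Agent.Y462.SS (Closed)

variable {C : ∀ (G : Type) [Group G], Prop}

theorem pi_fin (hC : Closed C) (n : ℕ) : ∀ (K : Fin n → Type) [∀ i, Group (K i)],
    (∀ i, C (K i)) → C (∀ i, K i) := by
  induction n with
  | zero =>
    intro K _ _
    refine hC.of_injective _ (Multiplicative ℤ) 1 ?_ hC.int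
    intro x y _
    funext i
    exact i.elim0
  | succ n ih =>
    intro K _ h
    refine hC.of_injective _ (K 0 × ∀ i : Fin n, K i.succ)
      (MonoidHom.mk' (fun x => (x 0, fun i => x i.succ)) (fun _ _ => rfl)) ?_
      (hC.prod _ _ (h 0) (ih _ fun i => h _))
    intro x y hxy
    funext i
    refine Fin.cases ?_ (fun j => ?_) i
    · exact congrArg Prod.fst hxy
    · exact congrFun (congrArg Prod.snd hxy) j

theorem pi_mem (hC : Closed C) {I : Type} [Finite I] (K : I → Type) [∀ i, Group (K i)]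
    (h : ∀ i, C (K i)) : C (∀ i, K i) := by
  obtain ⟨n, ⟨e⟩⟩ := Finite.exists_equiv_fin I
  refine hC.of_injective _ (∀ j : Fin n, K (e.symm j))
    (MonoidHom.mk' (fun x j => x (e.symm j)) (fun _ _ => rfl)) ?_ (pi_fin hC n _ fun j => h _)
  intro x y hxy
  funext i
  obtain ⟨j, rfl⟩ := e.symm.surjective i
  exact congrFun hxy j

theorem base_pt {V : Type} (π : Equiv.Perm V) : ∃ (b : V → V) (i : V → ℤ),
    (∀ v, (π ^ i v) (b v) = v) ∧ ∀ v, b (π v) = b v := by
  let r := Equiv.Perm.SameCycle.setoid π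
  have h1 : ∀ v : V, ∃ k : ℤ, (π ^ k) (Quotient.mk r v).out = v := fun v => Quotient.mk_out (s := r) v
  choose i hi using h1
  refine ⟨fun v => (Quotient.mk r v).out, i, hi, ?_⟩
  intro v
  have h2 : Quotient.mk r (π v) = Quotient.mk r v :=
    Quotient.sound (s := r) (show Equiv.Perm.SameCycle π (π v) v from ⟨-1, by simp⟩)
  show (Quotient.mk r (π v)).out = _
  rw [h2]

theorem cyc {G V : Type} [Group G] (π : Equiv.Perm V) (h : G) (u : V) : ∃ c : G,
    (∃ k : ℤ, (π ^ k) u = u ∧ c = h ^ k) ∧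
    ∀ k : ℤ, (π ^ k) u = u → h ^ k ∈ Subgroup.zpowers c := by
  let H : AddSubgroup ℤ :=
    { carrier := {k | (π ^ k) u = u}
      zero_mem' := by simp
      add_mem' := by
        intro a b ha hb
        show (π ^ (a + b)) u = u
        rw [zpow_add, Equiv.Perm.mul_apply, show (π ^ b) u = u from hb, show (π ^ a) u = u from ha]
      neg_mem' := by
        intro a ha
        show (π ^ (-a)) u = u
        rw [zpow_neg, Equiv.Perm.inv_eq_iff_eq]
        exact (show (π ^ a) u = u from ha).symm }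
  obtain ⟨a, ha⟩ := Int.subgroup_cyclic H
  refine ⟨h ^ a, ⟨a, ?_, rfl⟩, ?_⟩
  · have h1 : a ∈ H := by
      rw [ha]
      exact AddSubgroup.mem_closure_of_mem rfl
    exact h1
  · intro k hk
    have h1 : k ∈ H := hk
    rw [ha, AddSubgroup.mem_closure_singleton] at h1
    obtain ⟨n, hn⟩ := h1
    refine ⟨n, ?_⟩
    show (h ^ a) ^ n = h ^ k
    rw [← hn, ← zpow_mul, smul_eq_mul, mul_comm]

theorem maps_pow {G V : Type} [Group G] {π : Equiv.Perm V} {h : G} {A : V → Subgroup G}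
    (hA : ∀ v, Maps h (A v) (A (π v))) (n : ℕ) (v : V) : Maps (h ^ n) (A v) (A ((π ^ n) v)) := by
  induction n with
  | zero => simpa using Maps.refl (A v)
  | succ n ih =>
    rw [pow_succ', pow_succ', Equiv.Perm.mul_apply]
    exact ih.mul (hA _)

theorem maps_zpow {G V : Type} [Group G] {π : Equiv.Perm V} {h : G} {A : V → Subgroup G}
    (hA : ∀ v, Maps h (A v) (A (π v))) (k : ℤ) (v : V) : Maps (h ^ k) (A v) (A ((π ^ k) v)) := by
  obtain ⟨n, rfl | rfl⟩ := k.eq_nat_or_neg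
  · rw [zpow_natCast, zpow_natCast]
    exact maps_pow hA n v
  · have h1 := (maps_pow hA n ((π ^ (-(n : ℤ))) v)).inv
    have h2 : (π ^ n) ((π ^ (-(n : ℤ))) v) = v := by
      rw [zpow_neg, zpow_natCast]
      exact (π ^ n).apply_symm_apply v
    rw [h2] at h1
    rwa [zpow_neg, zpow_natCast]

/-- an element of the kernel is in the subgroup generated by finitely many vertex groups -/
theorem supp {G V : Type} [Group G] {Λ : SimpleGraph V} {A : V → Subgroup G} {N : Subgroup G}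
    (hN : GProd Λ A N) {x : G} (hx : x ∈ N) : ∃ S : Finset V, x ∈ ⨆ s ∈ S, A s := by
  classical
  have h1 : N ≤ ⨆ S : Finset V, ⨆ s ∈ S, A s := by
    apply hN.gen
    intro v
    refine le_trans ?_ (le_iSup (fun S : Finset V => ⨆ s ∈ S, A s) {v})
    exact le_iSup₂ (f := fun s (_ : s ∈ ({v} : Finset V)) => A s) v (Finset.mem_singleton_self v)
  have h2 : Directed (· ≤ ·) (fun S : Finset V => ⨆ s ∈ S, A s) := by
    intro S T
    refine ⟨S ∪ T, ?_, ?_⟩
    · exact biSup_mono fun s hs => Finset.mem_union_left _ hs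
    · exact biSup_mono fun s hs => Finset.mem_union_right _ hs
  exact (Subgroup.mem_iSup_of_directed h2).1 (h1 hx)

theorem supp_set {G V : Type} [Group G] {Λ : SimpleGraph V} {A : V → Subgroup G} {N : Subgroup G}
    (hN : GProd Λ A N) {E : Set G} (hE : E.Finite) (hEN : E ⊆ N) :
    ∃ S : Finset V, E ⊆ ((⨆ s ∈ S, A s : Subgroup G) : Set G) := by
  classical
  induction E, hE using Set.Finite.induction_on with
  | empty => exact ⟨∅, Set.empty_subset _⟩
  | @insert a E ha hE ih =>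
    obtain ⟨S, hS⟩ := ih (fun x hx => hEN (Set.mem_insert_of_mem _ hx))
    obtain ⟨T, hT⟩ := supp hN (hEN (Set.mem_insert a E))
    refine ⟨S ∪ T, ?_⟩
    have h1 : (⨆ s ∈ S, A s) ≤ ⨆ s ∈ S ∪ T, A s := biSup_mono fun s hs => Finset.mem_union_left _ hs
    have h2 : (⨆ s ∈ T, A s) ≤ ⨆ s ∈ S ∪ T, A s := biSup_mono fun s hs => Finset.mem_union_right _ hs
    rintro x (rfl | hx)
    · exact h2 hT
    · exact h1 (hS hx)

/-- the elements which normalize `A` -/
def nor {G : Type} [Group G] (A : Subgroup G) : Subgroup G where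
  carrier := {x | Maps x A A}
  mul_mem' := fun ha hb => Maps.mul hb ha
  one_mem' := Maps.refl A
  inv_mem' := fun ha => Maps.inv ha

theorem le_nor {G : Type} [Group G] (A : Subgroup G) : A ≤ nor A := by
  intro a ha x
  constructor
  · intro hx
    exact A.mul_mem (A.mul_mem ha hx) (A.inv_mem ha)
  · intro hx
    have h1 : a⁻¹ * (a * x * a⁻¹) * a = x := by group
    rw [← h1]
    exact A.mul_mem (A.mul_mem (A.inv_mem ha) hx) ha

theorem sup_nor {G : Type} [Group G] {A : Subgroup G} {c : G} (hc : Maps c A A) :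
    A ⊔ Subgroup.zpowers c ≤ nor A := by
  refine sup_le (le_nor A) ?_
  rw [Subgroup.zpowers_le]
  exact hc

section real

variable {G V : Type} [Group G] {Λ : SimpleGraph V} {A : V → Subgroup G} {N : Subgroup G}
  [N.Normal]

/-- the groups over the orbits -/
abbrev DD (A : V → Subgroup G) (c : V → G) (U : Finset V) : Type :=
  ∀ u : U, ↥(A u ⊔ Subgroup.zpowers (c u))

/-- the subgroup of the products of the vertex groups -/
def BB (A : V → Subgroup G) (c : V → G) (U : Finset V) : Subgroup (DD A c U) where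
  carrier := {φ | ∀ u : U, (φ u : G) ∈ A u}
  mul_mem' := fun ha hb u => (A u).mul_mem (ha u) (hb u)
  one_mem' := fun u => (A u).one_mem
  inv_mem' := fun ha u => (A u).inv_mem (ha u)

theorem BB_normal {c : V → G} (hc : ∀ u, Maps (c u) (A u) (A u)) (U : Finset V) :
    (BB A c U).Normal := by
  constructor
  intro φ hφ ψ u
  exact ((sup_nor (hc (u : V)) (ψ u).2) (φ u : G)).1 (hφ u)

open Classical in
/-- an element with one nontrivial coordinate -/
noncomputable def pt (A : V → Subgroup G) (c : V → G) (U : Finset V) (u : V) (hu : u ∈ U) (x : G)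
    (hx : x ∈ A u ⊔ Subgroup.zpowers (c u)) : DD A c U :=
  Pi.mulSingle (⟨u, hu⟩ : U) ⟨x, hx⟩

theorem pt_same {c : V → G} {U : Finset V} {u : V} {hu : u ∈ U} {x : G}
    {hx : x ∈ A u ⊔ Subgroup.zpowers (c u)} : (pt A c U u hu x hx ⟨u, hu⟩ : G) = x := by
  classical
  rw [pt, Pi.mulSingle_eq_same]

theorem pt_congr {c : V → G} {U : Finset V} {u u' : V} {hu : u ∈ U} {hu' : u' ∈ U} {x x' : G}
    {hx : x ∈ A u ⊔ Subgroup.zpowers (c u)} {hx' : x' ∈ A u' ⊔ Subgroup.zpowers (c u')}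
    (h1 : u = u') (h2 : x = x') : pt A c U u hu x hx = pt A c U u' hu' x' hx' := by
  subst h1
  subst h2
  rfl

theorem pt_mul {c : V → G} {U : Finset V} {u : V} {hu : u ∈ U} {x x' : G}
    {hx : x ∈ A u ⊔ Subgroup.zpowers (c u)} {hx' : x' ∈ A u ⊔ Subgroup.zpowers (c u)} :
    pt A c U u hu x hx * pt A c U u hu x' hx' =
      pt A c U u hu (x * x') (Subgroup.mul_mem _ hx hx') := by
  classical
  rw [pt, pt, pt, ← Pi.mulSingle_mul]
  rfl

theorem pt_inv {c : V → G} {U : Finset V} {u : V} {hu : u ∈ U} {x : G}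
    {hx : x ∈ A u ⊔ Subgroup.zpowers (c u)} :
    (pt A c U u hu x hx)⁻¹ = pt A c U u hu x⁻¹ (Subgroup.inv_mem _ hx) := by
  classical
  rw [pt, pt, ← Pi.mulSingle_inv]
  rfl

theorem pt_mem {c : V → G} {U : Finset V} {u : V} {hu : u ∈ U} {x : G}
    {hx : x ∈ A u ⊔ Subgroup.zpowers (c u)} (hxA : x ∈ A u) : pt A c U u hu x hx ∈ BB A c U := by
  classical
  intro w
  by_cases hw : w = (⟨u, hu⟩ : U)
  · subst hw
    rw [pt_same]
    exact hxA
  · rw [pt, Pi.mulSingle_eq_of_ne hw]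
    exact (A w).one_mem

/-- **the conjugation by an element which permutes the vertex groups is realized** -/
theorem real (hF : ClosedF C) (hN : GProd Λ A N) {h : G} {π : Equiv.Perm V}
    (hπ : ∀ v w, Λ.Adj (π v) (π w) ↔ Λ.Adj v w) (hA : ∀ v, Maps h (A v) (A (π v)))
    (hC : ∀ (v : V) (x : G), Maps x (A v) (A v) → C ↥(A v ⊔ Subgroup.zpowers x))
    {E : Set G} (hE : E.Finite) (hEN : E ⊆ N) : Realized C h E := by
  classical
  obtain ⟨S, hS⟩ := supp_set hN hE hEN
  obtain ⟨b, i, hbi, hb⟩ := base_pt π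
  choose c hc1 hc2 using cyc π h
  -- vertices
  obtain ⟨T0, hT0, hT1⟩ : ∃ T0 : Finset V, (∀ s ∈ S, s ∈ T0) ∧ ∀ s ∈ S, π s ∈ T0 :=
    ⟨S ∪ S.image π, fun s hs => Finset.mem_union_left _ hs,
      fun s hs => Finset.mem_union_right _ (Finset.mem_image_of_mem π hs)⟩
  obtain ⟨U, hU⟩ : ∃ U : Finset V, ∀ v ∈ T0, b v ∈ U :=
    ⟨T0.image b, fun v hv => Finset.mem_image_of_mem b hv⟩
  obtain ⟨T', hT', Λ', ι, τ, hι, hιΛ, hτ, hτι⟩ := eppa T0 inferInstance
    (Λ.comap (fun v : T0 => (v : V))) {v | (v : V) ∈ S} (fun v => ⟨π v.1, hT1 _ v.2⟩)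
    (by
      intro v w hvw
      apply Subtype.ext
      apply Subtype.ext
      exact π.injective (congrArg Subtype.val hvw))
    (fun v w => hπ _ _)
  have hcu : ∀ u, Maps (c u) (A u) (A u) := by
    intro u
    obtain ⟨k, hk, hck⟩ := hc1 u
    have h1 := maps_zpow hA k u
    rw [hk] at h1
    rwa [hck]
  have hD : C (DD A c U) := pi_mem hF.base.base _ fun u => hC u (c u) (hcu u)
  have hB : (BB A c U).Normal := BB_normal hcu U
  -- the translations
  have hk : ∀ v, Maps (h ^ i v) (A (b v)) (A v) := by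
    intro v
    have h1 := maps_zpow hA (i v) (b v)
    rwa [hbi] at h1
  have hk' : ∀ v, ∀ a ∈ A v, (h ^ i v)⁻¹ * a * h ^ i v ∈ A (b v) := by
    intro v a ha
    have h1 := ((hk v).inv a).1 ha
    rwa [inv_inv] at h1
  -- the inclusions of the vertex groups
  let j : ∀ v : T0, A v →* BB A c U := fun v => MonoidHom.mk'
    (fun a => ⟨pt A c U (b v) (hU v v.2) ((h ^ i v)⁻¹ * a * h ^ i v)
      (Subgroup.mem_sup_left (hk' v a a.2)), pt_mem (hk' v a a.2)⟩) (by
      intro x y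
      apply Subtype.ext
      show pt A c U (b v) _ _ _ = pt A c U (b v) _ _ _ * pt A c U (b v) _ _ _
      rw [pt_mul]
      refine pt_congr rfl ?_
      show (h ^ i v)⁻¹ * ((x : G) * (y : G)) * h ^ i v = _
      group)
  obtain ⟨F, hFj⟩ := hN.univ (Gm Λ' (BB A c U))
    (fun v => if hv : v ∈ T0 then (vo Λ' (BB A c U) (ι ⟨v, hv⟩)).comp (j ⟨v, hv⟩) else 1) (by
      intro v w hvw x y
      by_cases hv : v ∈ T0
      · by_cases hw : w ∈ T0
        · rw [dif_pos hv, dif_pos hw]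
          exact gcomm (A := fun _ : T' => BB A c U) ((hιΛ ⟨v, hv⟩ ⟨w, hw⟩).2 hvw) _ _
        · rw [dif_neg hw, MonoidHom.one_apply, mul_one, one_mul]
      · rw [dif_neg hv, MonoidHom.one_apply, mul_one, one_mul])
  have hFj' : ∀ (v : V) (hv : v ∈ T0) (a : G) (ha : a ∈ A v), F ⟨a, hN.le v ha⟩ =
      vo Λ' (BB A c U) (ι ⟨v, hv⟩) (j ⟨v, hv⟩ ⟨a, ha⟩) := by
    intro v hv a ha
    have h1 := hFj v ⟨a, ha⟩
    rw [dif_pos hv] at h1
    exact h1
  -- the retraction
  let r : ∀ v : T0, BB A c U →* G := fun v => MonoidHom.mk'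
    (fun φ => h ^ i v * (φ.1 ⟨b v, hU v v.2⟩ : G) * (h ^ i v)⁻¹) (by
      intro x y
      show h ^ i v * ((x.1 ⟨b v, hU v v.2⟩ : G) * (y.1 ⟨b v, hU v v.2⟩ : G)) * (h ^ i v)⁻¹ = _
      group)
  have hr : ∀ (v : T0) φ, r v φ ∈ A v := fun v φ =>
    (hk v _).1 (φ.2 ⟨b v, hU v v.2⟩)
  let R : Gm Λ' (BB A c U) →* G := glift
    (fun t => if ht : ∃ v : T0, ι v = t then r ht.choose else 1) (by
      intro t t' htt x y
      by_cases ht : ∃ v : T0, ι v = t
      · by_cases ht' : ∃ v : T0, ι v = t'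
        · rw [dif_pos ht, dif_pos ht']
          refine hN.comm _ _ ?_ _ (hr _ _) _ (hr _ _)
          have h1 := (hιΛ ht.choose ht'.choose).1
          rw [ht.choose_spec, ht'.choose_spec] at h1
          exact h1 htt
        · rw [dif_neg ht', MonoidHom.one_apply, mul_one, one_mul]
      · rw [dif_neg ht, MonoidHom.one_apply, mul_one, one_mul])
  have hR : ∀ (v : T0) φ, R (vo Λ' (BB A c U) (ι v) φ) = r v φ := by
    intro v φ
    have h1 : R (vo Λ' (BB A c U) (ι v) φ) = (if ht : ∃ w : T0, ι w = ι v then r ht.choose else 1) φ :=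
      glift_of _ _ _ _
    have h2 : ∃ w : T0, ι w = ι v := ⟨v, rfl⟩
    rw [h1, dif_pos h2, hι h2.choose_spec]
  -- the twist
  have hw : ∀ v, (π ^ (-i (π v) + (1 + i v))) (b v) = b v := by
    intro v
    rw [zpow_add, Equiv.Perm.mul_apply, zpow_add, Equiv.Perm.mul_apply, hbi, zpow_one, zpow_neg,
      Equiv.Perm.inv_eq_iff_eq]
    have h1 := hbi (π v)
    rw [hb] at h1
    exact h1.symm
  let w : T0 → DD A c U := fun v => pt A c U (b v) (hU v v.2) (h ^ (-i (π v) + (1 + i v)))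
    (Subgroup.mem_sup_right (hc2 _ _ (hw v)))
  let z : T' → DD A c U := fun t => if ht : ∃ v : T0, ι v = t then w ht.choose else 1
  have hz : ∀ v : T0, z (ι v) = w v := by
    intro v
    have h2 : ∃ w : T0, ι w = ι v := ⟨v, rfl⟩
    show (if ht : ∃ w : T0, ι w = ι v then w ht.choose else 1) = _
    rw [dif_pos h2, hι h2.choose_spec]
  -- the support
  have hST : (⨆ s ∈ S, A s) ≤ ⨆ s ∈ T0, A s := biSup_mono fun s hs => hT0 s hs
  have hTN : (⨆ s ∈ T0, A s) ≤ N := iSup₂_le fun s _ => hN.le s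
  have hconj : ∀ x ∈ ⨆ s ∈ S, A s, h * x * h⁻¹ ∈ ⨆ s ∈ T0, A s := by
    have h1 : (⨆ s ∈ S, A s) ≤ (⨆ s ∈ T0, A s).comap (MulAut.conj h).toMonoidHom := by
      refine iSup₂_le fun s hs x hx => ?_
      have h2 : h * x * h⁻¹ ∈ A (π s) := (hA s x).1 hx
      have h3 : A (π s) ≤ ⨆ s ∈ T0, A s := le_iSup₂ (f := fun s (_ : s ∈ T0) => A s) (π s) (hT1 s hs)
      exact h3 h2
    exact fun x hx => h1 hx
  -- injectivity
  have hRF : ∀ (x : N), (x : G) ∈ ⨆ s ∈ T0, A s → R (F x) = x := by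
    have h1 : (⨆ s ∈ T0, A s) ≤ ((R.comp F).eqLocus N.subtype).map N.subtype := by
      refine iSup₂_le fun s hs x hx => ?_
      refine ⟨⟨x, hN.le s hx⟩, ?_, rfl⟩
      show R (F ⟨x, hN.le s hx⟩) = x
      rw [hFj' s hs x hx, hR]
      show h ^ i s * ((pt A c U (b s) _ _ _ ⟨b s, _⟩ : ↥(A (b s) ⊔ Subgroup.zpowers (c (b s)))) : G) *
        (h ^ i s)⁻¹ = x
      rw [pt_same]
      group
    intro x hx
    obtain ⟨y, hy, hyx⟩ := h1 hx
    have h2 : y = x := Subtype.ext hyx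
    rw [← h2]
    exact hy
  -- equivariance
  have heq : ∀ (x y : N), (x : G) ∈ ⨆ s ∈ S, A s → (y : G) = h * x * h⁻¹ →
      F y = sg Λ' (BB A c U) z τ hτ (F x) := by
    let κ : N →* N := (MulAut.conjNormal h : MulAut N).toMonoidHom
    have h1 : (⨆ s ∈ S, A s) ≤ ((F.comp κ).eqLocus
        ((sg Λ' (BB A c U) z τ hτ).toMonoidHom.comp F)).map N.subtype := by
      refine iSup₂_le fun s hs x hx => ?_
      refine ⟨⟨x, hN.le s hx⟩, ?_, rfl⟩
      show F (MulAut.conjNormal h ⟨x, hN.le s hx⟩) = sg Λ' (BB A c U) z τ hτ (F ⟨x, hN.le s hx⟩)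
      have h2 : h * x * h⁻¹ ∈ A (π s) := (hA s x).1 hx
      have h3 : MulAut.conjNormal h (⟨x, hN.le s hx⟩ : N) = ⟨h * x * h⁻¹, hN.le _ h2⟩ :=
        Subtype.ext (MulAut.conjNormal_apply h _)
      rw [h3, hFj' (π s) (hT1 s hs) _ h2, hFj' s (hT0 s hs) x hx, sg_of, hz]
      have h4 : τ (ι ⟨s, hT0 s hs⟩) = ι ⟨π s, hT1 s hs⟩ := hτι ⟨⟨s, hT0 s hs⟩, hs⟩
      rw [h4]
      congr 1
      apply Subtype.ext
      rw [cB_coe]
      show pt A c U (b (π s)) _ _ _ = pt A c U (b s) _ _ _ * pt A c U (b s) _ _ _ *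
        (pt A c U (b s) _ _ _)⁻¹
      rw [pt_mul, pt_inv, pt_mul]
      refine pt_congr (hb s) ?_
      show (h ^ i (π s))⁻¹ * (h * x * h⁻¹) * h ^ i (π s) =
        h ^ (-i (π s) + (1 + i s)) * ((h ^ i s)⁻¹ * x * h ^ i s) * (h ^ (-i (π s) + (1 + i s)))⁻¹
      rw [zpow_add, zpow_add, zpow_one, zpow_neg]
      group
    intro x y hx hy
    obtain ⟨x', hx', hxx⟩ := h1 hx
    have h2 : x' = x := Subtype.ext hxx
    have h3 : y = κ x := Subtype.ext (by rw [hy]; exact (MulAut.conjNormal_apply h _).symm)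
    rw [h3, ← h2]
    exact hx'
  -- the realization
  have hcl : Subgroup.closure (E ∪ (fun x => h * x * h⁻¹) '' E) ≤ ⨆ s ∈ T0, A s := by
    rw [Subgroup.closure_le]
    rintro x (hx | ⟨y, hy, rfl⟩)
    · exact hST (hS hx)
    · exact hconj y (hS hy)
  have hclN : Subgroup.closure (E ∪ (fun x => h * x * h⁻¹) '' E) ≤ N := hcl.trans hTN
  refine ⟨PT Λ' (BB A c U) z τ hτ, inferInstance,
    (il Λ' (BB A c U) z τ hτ).comp (F.comp (Subgroup.inclusion hclN)), ze Λ' (BB A c U) z τ hτ,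
    U643.GP.main hF hD, ?_, ?_⟩
  · intro x y hxy
    have h1 : F (Subgroup.inclusion hclN x) = F (Subgroup.inclusion hclN y) := il_inj hxy
    have h2 := hRF (Subgroup.inclusion hclN x) (hcl x.2)
    have h3 := hRF (Subgroup.inclusion hclN y) (hcl y.2)
    rw [h1] at h2
    have h4 : ((Subgroup.inclusion hclN x : N) : G) = (Subgroup.inclusion hclN y : N) :=
      h2.symm.trans h3
    exact Subtype.ext h4
  · intro x y hx hy
    show il Λ' (BB A c U) z τ hτ (F (Subgroup.inclusion hclN y)) = _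
    rw [heq (Subgroup.inclusion hclN x) (Subgroup.inclusion hclN y) (hS hx) hy, ← ze_conj]
    rfl

end real

end Pool.Agent.U643.GP
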