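import Pool.Agent.U643.GP.Main
import Pool.Agent.Q30.FJ.GPf
import Pool.Agent.R941.FJ.Hyper

/-!
# Kernels and ascending series
-/

set_option autoImplicit false

namespace Pool.Agent.U643.GP

open Pool.Agent.Y110.FJ Q30.FJ
open Pool.Agent.Y462.SS (Closed)
open Pool.Agent.R941.FJ (C_equiv C_le C_cyc quot step mem_sup_normal)

variable {C : ∀ (G : Type) [Group G], Prop}

/-- all groups `N ⟨g⟩` are in the class -/
def Kern (C : ∀ (G : Type) [Group G], Prop) {G : Type} [Group G] (N : Subgroup G) : Prop :=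
  ∀ g : G, C ↥(N ⊔ Subgroup.zpowers g)

theorem realized_sub (hC : Closed C) {G : Type} [Group G] {H : Subgroup G} {h : H} {E : Set H}
    (hr : Realized C (h : G) (Subtype.val '' E)) : Realized C h E := by
  obtain ⟨P, _, f, p, hP, hf, hfp⟩ := hr
  have hle : ∀ x : H, x ∈ Subgroup.closure (E ∪ (fun x => h * x * h⁻¹) '' E) →
      (x : G) ∈ Subgroup.closure ((Subtype.val '' E) ∪
        (fun x => (h : G) * x * (h : G)⁻¹) '' (Subtype.val '' E)) := by
    intro x hx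
    have h1 : Subgroup.closure (E ∪ (fun x => h * x * h⁻¹) '' E) ≤
        (Subgroup.closure ((Subtype.val '' E) ∪
        (fun x => (h : G) * x * (h : G)⁻¹) '' (Subtype.val '' E))).comap H.subtype := by
      rw [Subgroup.closure_le]
      rintro y (hy | ⟨z, hz, rfl⟩)
      · exact Subgroup.subset_closure (Or.inl ⟨y, hy, rfl⟩)
      · exact Subgroup.subset_closure (Or.inr ⟨z, ⟨z, hz, rfl⟩, rfl⟩)
    exact h1 hx
  refine ⟨P, inferInstance, f.comp (MonoidHom.mk' (fun x => ⟨(x.1 : G), hle x.1 x.2⟩)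
    (fun _ _ => rfl)), p, hP, ?_, ?_⟩
  · intro x y hxy
    have h1 := hf hxy
    have h2 := congrArg Subtype.val h1
    exact Subtype.ext (Subtype.ext h2)
  · intro x y hx hy
    exact hfp ⟨(x.1 : G), hle x.1 x.2⟩ ⟨(y.1 : G), hle y.1 y.2⟩ ⟨x.1, hx, rfl⟩
      (congrArg Subtype.val hy)

theorem realized_mul {G : Type} [Group G] {g n : G} {E : Set G}
    (hr : Realized C g (insert n E)) : Realized C (n * g) E := by
  obtain ⟨P, _, f, p, hP, hf, hfp⟩ := hr
  obtain ⟨L, hL⟩ : ∃ L : Subgroup G, L = Subgroup.closure ((insert n E) ∪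
      (fun x => g * x * g⁻¹) '' (insert n E)) := ⟨_, rfl⟩
  have hn : n ∈ L := by
    rw [hL]
    exact Subgroup.subset_closure (Or.inl (Set.mem_insert _ _))
  have hE : ∀ x ∈ E, x ∈ L := by
    intro x hx
    rw [hL]
    exact Subgroup.subset_closure (Or.inl (Set.mem_insert_of_mem _ hx))
  have hgE : ∀ x ∈ E, g * x * g⁻¹ ∈ L := by
    intro x hx
    rw [hL]
    exact Subgroup.subset_closure (Or.inr ⟨x, Set.mem_insert_of_mem _ hx, rfl⟩)
  have hle : Subgroup.closure (E ∪ (fun x => n * g * x * (n * g)⁻¹) '' E) ≤ L := by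
    rw [Subgroup.closure_le]
    rintro x (hx | ⟨y, hy, rfl⟩)
    · exact hE x hx
    · have h1 := L.mul_mem (L.mul_mem hn (hgE y hy)) (L.inv_mem hn)
      have h2 : n * (g * y * g⁻¹) * n⁻¹ = n * g * y * (n * g)⁻¹ := by group
      rw [h2] at h1
      exact h1
  subst hL
  refine ⟨P, inferInstance, f.comp (Subgroup.inclusion hle), f ⟨n, hn⟩ * p, hP,
    hf.comp (Subgroup.inclusion_injective hle), ?_⟩
  intro x y hx hy
  have h1 := hfp (Subgroup.inclusion hle x) ⟨g * x * g⁻¹, hgE x hx⟩ (Set.mem_insert_of_mem _ hx) rfl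
  have h2 : Subgroup.inclusion hle y = ⟨n, hn⟩ * ⟨g * x * g⁻¹, hgE x hx⟩ * ⟨n, hn⟩⁻¹ := by
    apply Subtype.ext
    show (y : G) = n * (g * x * g⁻¹) * n⁻¹
    rw [hy]
    group
  show f (Subgroup.inclusion hle y) = _
  rw [h2, map_mul, map_mul, h1, map_inv]
  show _ = f ⟨n, hn⟩ * p * f (Subgroup.inclusion hle x) * (f ⟨n, hn⟩ * p)⁻¹
  group

/-- cyclic quotients -/
theorem cyc_quot (hC : Closed C) {G : Type} [Group G] (N : Subgroup G) [N.Normal] (g : G) :
    C (↥(N ⊔ Subgroup.zpowers g) ⧸ N.subgroupOf (N ⊔ Subgroup.zpowers g)) := by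
  refine quot hC _ ?_
  rw [Subgroup.map_sup, MonoidHom.map_zpowers]
  have h1 : N.map (QuotientGroup.mk' N) = ⊥ := by
    rw [Subgroup.map_eq_bot_iff, QuotientGroup.ker_mk']
  rw [h1, bot_sup_eq]
  exact C_cyc hC _

theorem kern_of_realized (hC : ClosedE C) {G : Type} [Group G] (N : Subgroup G) [N.Normal]
    (h : ∀ (g : G) (E : Set G), E.Finite → E ⊆ N → Realized C g E) : Kern C N := by
  intro g
  refine crit C hC _ (N.subgroupOf (N ⊔ Subgroup.zpowers g)) (cyc_quot hC.base N g) ?_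
  intro x E hE hEN
  refine realized_sub hC.base (h x _ (hE.image _) ?_)
  rintro _ ⟨y, hy, rfl⟩
  exact hEN hy

/-- **permuted graph products** -/
theorem gp_kern (hF : ClosedF C) {G V : Type} [Group G] {Λ : SimpleGraph V} {A : V → Subgroup G}
    {N : Subgroup G} [N.Normal] (hN : GProd Λ A N)
    (hperm : ∀ g : G, ∃ n ∈ N, ∃ π : Equiv.Perm V, (∀ v w, Λ.Adj (π v) (π w) ↔ Λ.Adj v w) ∧
      ∀ v, Maps (n * g) (A v) (A (π v)))
    (hC : ∀ (v : V) (x : G), Maps x (A v) (A v) → C ↥(A v ⊔ Subgroup.zpowers x)) : Kern C N := by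
  refine kern_of_realized hF.base N ?_
  intro g E hE hEN
  obtain ⟨n, hn, π, hπ, hA⟩ := hperm g
  have h1 : Realized C (n * g) (insert n⁻¹ E) := real hF hN hπ hA hC (hE.insert _)
    (Set.insert_subset (N.inv_mem hn) hEN)
  have h2 := realized_mul h1
  rwa [inv_mul_cancel_left] at h2

/-- restriction of the data to a subgroup -/
theorem gfree_sub {G V J : Type} [Group G] {Λ : SimpleGraph V} {A : V → Subgroup G} {x : J → G}
    {N : Subgroup G} (h : GFree Λ A x N) (B : Subgroup G) (hNB : N ≤ B) :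
    GFree Λ (fun v => (A v).subgroupOf B) (fun j => (⟨x j, hNB (h.mem j)⟩ : B))
      (N.subgroupOf B) where
  le v a ha := h.le v ha
  mem j := h.mem j
  gen M hM hx := by
    have h1 : N ≤ M.map B.subtype := by
      apply h.gen
      · intro v a ha
        exact ⟨⟨a, hNB (h.le v ha)⟩, hM v ha, rfl⟩
      · intro j
        exact ⟨_, hx j, rfl⟩
    intro a ha
    obtain ⟨b, hb, hba⟩ := h1 ha
    have h2 : b = a := Subtype.ext hba
    rwa [← h2]
  comm v w hvw a ha b hb := Subtype.ext (h.comm v w hvw a ha b hb)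
  univ H _ f y hf := by
    obtain ⟨φ, hφ, hφx⟩ := h.univ H (fun v => (f v).comp (MonoidHom.mk'
      (fun a => (⟨⟨a.1, hNB (h.le v a.2)⟩, a.2⟩ : (A v).subgroupOf B)) (fun _ _ => rfl))) y
      (fun v w hvw a b => hf v w hvw _ _)
    refine ⟨φ.comp (MonoidHom.mk' (fun a => (⟨a.1.1, a.2⟩ : N)) (fun _ _ => rfl)), ?_, ?_⟩
    · intro v a
      exact hφ v ⟨a.1.1, a.2⟩
    · intro j
      exact hφx j

/-- **free products of graph products and free groups** -/
theorem gf_kern (hF : ClosedF C) {G V J : Type} [Group G] {Λ : SimpleGraph V} {A : V → Subgroup G}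
    {x : J → G} {N : Subgroup G} [N.Normal] (h : GFree Λ A x N) (hne : ∀ v, A v ≠ ⊥)
    (hperm : ∀ (g : G) (v : V), ∃ w, Mv N g (A v) (A w))
    (hst : ∀ (g : G) (v : V), ∃ k : ℕ, 0 < k ∧ ∀ (m : ℤ) (w : V),
      Mv N (g ^ ((k : ℤ) * m)) (A v) (A w) → ¬ Λ.Adj v w)
    (hC : ∀ (v : V) (g : G), Maps g (A v) (A v) → C ↥(A v ⊔ Subgroup.zpowers g)) : Kern C N := by
  intro g
  obtain ⟨B, hB⟩ : ∃ B : Subgroup G, B = N ⊔ Subgroup.zpowers g := ⟨_, rfl⟩
  have hNB : N ≤ B := by rw [hB]; exact le_sup_left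
  have hq : C (B ⧸ N.subgroupOf B) := by
    subst hB
    exact cyc_quot hF.base.base N g
  have hA : ∀ v, A v ≤ B := fun v => (h.le v).trans hNB
  rw [← hB]
  refine gfree_main hF (gfree_sub h B hNB) hq ?_ ?_ ?_ ?_
  · intro v hv
    apply hne v
    rw [Subgroup.eq_bot_iff_forall] at hv ⊢
    intro a ha
    exact congrArg Subtype.val (hv ⟨a, hA v ha⟩ ha)
  · intro x v
    obtain ⟨w, n, hn, hm⟩ := hperm x v
    exact ⟨w, ⟨n, hNB hn⟩, hn, Maps.sub (g := ⟨n, hNB hn⟩ * x) hm⟩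
  · intro x v
    obtain ⟨k, hk0, hk⟩ := hst x v
    refine ⟨k, hk0, ?_⟩
    rintro m w ⟨n, hn, hm⟩
    exact hk m w ⟨n, hn, Maps.of_sub (g := n * x ^ ((k : ℤ) * m)) (hA v) (hA w) hm⟩
  · intro v x hx
    have h3 : (A v).subgroupOf B ⊔ Subgroup.zpowers x ≤
        (A v ⊔ Subgroup.zpowers (x : G)).comap B.subtype := by
      refine sup_le ?_ ?_
      · intro y hy
        exact Subgroup.mem_sup_left hy
      · rw [Subgroup.zpowers_le]
        exact Subgroup.mem_sup_right (Subgroup.mem_zpowers _)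
    refine hF.base.base.of_injective _ ↥(A v ⊔ Subgroup.zpowers (x : G))
      ((B.subtype.comp ((A v).subgroupOf B ⊔ Subgroup.zpowers x).subtype).codRestrict _
        fun y => h3 y.2) ?_ (hC v _ (hx.of_sub (hA v) (hA v)))
    intro a b hab
    exact Subtype.ext (Subtype.ext
      (congrArg (fun z : ↥(A v ⊔ Subgroup.zpowers (x : G)) => (z : G)) hab))

/-- extensions -/
theorem kern_ext (hC : ClosedE C) {G : Type} [Group G] (N : Subgroup G) [N.Normal]
    (hN : Kern C N) (hQ : C (G ⧸ N)) : C G :=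
  Pool.Agent.Y529.FJ.t_ext C hC G N (C_le hC.base le_sup_left (hN 1)) hQ fun g _ => hN g

/-- **ascending series** -/
theorem series (hC : ClosedE C) {G : Type} [Group G] (N : Subgroup G) (𝒮 : Set (Subgroup G))
    (hn : ∀ K ∈ 𝒮, K.Normal) (hbot : ⊥ ∈ 𝒮)
    (hchain : ∀ c ⊆ 𝒮, c.Nonempty → IsChain (· ≤ ·) c → sSup c ∈ 𝒮)
    (hstep : ∀ K ∈ 𝒮, K ≠ N → ∀ _ : K.Normal, ∃ K' ∈ 𝒮, K < K' ∧
      ∀ g : G, C ↥((K' ⊔ Subgroup.zpowers g).map (QuotientGroup.mk' K))) : Kern C N := by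
  obtain ⟨S, hS⟩ : ∃ S : Set (Subgroup G), S = {M | M ∈ 𝒮 ∧
    ∀ g : G, C ↥(M ⊔ Subgroup.zpowers g)} := ⟨_, rfl⟩
  have hbot' : (⊥ : Subgroup G) ∈ S := by
    rw [hS]
    refine ⟨hbot, fun g => ?_⟩
    rw [bot_sup_eq]
    exact C_cyc hC.base g
  obtain ⟨M, -, hM⟩ := zorn_le_nonempty₀ S (fun c hc hch y hy => by
    have hne : Nonempty c := ⟨⟨y, hy⟩⟩
    have hdir : DirectedOn (· ≤ ·) c := hch.directedOn
    have hc' : c ⊆ 𝒮 := by
      intro K hK
      have h1 := hc hK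
      rw [hS] at h1
      exact h1.1
    have hmem := hchain c hc' ⟨y, hy⟩ hch
    have hnor : (sSup c).Normal := hn _ hmem
    refine ⟨sSup c, ?_, fun z hz => le_sSup hz⟩
    rw [hS]
    refine ⟨hmem, fun g => ?_⟩
    refine Pool.Agent.Y430.SS.of_directed hC.base _ c (fun i j => ?_)
      (fun K => (K.1 ⊔ Subgroup.zpowers g).subgroupOf (sSup c ⊔ Subgroup.zpowers g)) ?_ ?_ ?_
    · obtain ⟨k, hk, h1, h2⟩ := hdir i.1 i.2 j.1 j.2
      exact ⟨⟨k, hk⟩, h1, h2⟩
    · intro i j hij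
      exact Subgroup.comap_mono (sup_le_sup_right hij _)
    · rintro ⟨x, hx⟩
      obtain ⟨a, ha, b, hb, hab⟩ := mem_sup_normal.1 hx
      rw [Subgroup.mem_sSup_of_directedOn ⟨y, hy⟩ hdir] at ha
      obtain ⟨K, hK, haK⟩ := ha
      refine ⟨⟨K, hK⟩, ?_⟩
      rw [Subgroup.mem_subgroupOf]
      show x ∈ K ⊔ Subgroup.zpowers g
      rw [← hab]
      exact mul_mem (Subgroup.mem_sup_left haK) (Subgroup.mem_sup_right hb)
    · intro i
      have h1 := hc i.2
      rw [hS] at h1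
      exact C_equiv hC.base
        (Subgroup.subgroupOfEquivOfLe (sup_le_sup_right (le_sSup i.2) _)) (h1.2 g)) ⊥ hbot'
  have hMS : M ∈ S := hM.prop
  rw [hS] at hMS
  obtain ⟨hMS, hMC⟩ := hMS
  have heq : M = N := by
    by_contra hne
    have hMn := hn M hMS
    obtain ⟨M', hM', hlt, hC'⟩ := hstep M hMS hne hMn
    have h1 : M' ∈ S := by
      rw [hS]
      exact ⟨hM', fun g => step hC hMC hlt.le hC' g⟩
    exact absurd (hM.le_of_ge h1 hlt.le) (not_le_of_gt hlt)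
  subst heq
  exact hMC

theorem kern_img {G : Type} [Group G] {M M' : Subgroup G} [M.Normal]
    (h : Kern C (M'.map (QuotientGroup.mk' M))) (g : G) :
    C ↥((M' ⊔ Subgroup.zpowers g).map (QuotientGroup.mk' M)) := by
  rw [Subgroup.map_sup, MonoidHom.map_zpowers]
  exact h _

end Pool.Agent.U643.GP
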