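import Pool.Agent.Q30.FJ.GPm

/-!
# Mapping tori of twisted permutations of a graph product over a finite graph
-/

set_option autoImplicit false

namespace Pool.Agent.U643.GP

open Pool.Agent.Y110.FJ Q30.FJ
open Pool.Agent.Y462.SS (Closed)

variable {C : ∀ (G : Type) [Group G], Prop}

section tw

variable {T : Type} (Λ : SimpleGraph T) {D : Type} [Group D] (B : Subgroup D) [hB : B.Normal]

/-- the graph product of copies of `B` -/
abbrev Gm : Type := GrP Λ (fun _ : T => B)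

/-- the inclusion of the vertex group -/
abbrev vo (t : T) : B →* Gm Λ B := GrP.of Λ (fun _ : T => B) t

/-- conjugation of `B` by an element of `D` -/
def cB (w : D) : B →* B :=
  MonoidHom.mk' (fun b => ⟨w * b * w⁻¹, hB.conj_mem b b.2 w⟩) (by
    intro a b
    apply Subtype.ext
    show w * ((a : D) * (b : D)) * w⁻¹ = w * a * w⁻¹ * (w * b * w⁻¹)
    group)

theorem cB_coe (w : D) (b : B) : ((cB B w b : B) : D) = w * b * w⁻¹ := rfl

theorem cB_mul (w w' : D) (b : B) : cB B w (cB B w' b) = cB B (w * w') b := by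
  apply Subtype.ext
  rw [cB_coe, cB_coe, cB_coe]
  group

theorem cB_one (b : B) : cB B 1 b = b := by
  apply Subtype.ext
  rw [cB_coe]
  group

variable (z : T → D) (τ : Equiv.Perm T) (hτ : ∀ x y, Λ.Adj (τ x) (τ y) ↔ Λ.Adj x y)

/-- the twisted permutation -/
noncomputable def sgh : Gm Λ B →* Gm Λ B :=
  glift (fun t => (vo Λ B (τ t)).comp (cB B (z t)))
    (fun v w h a b => gcomm (A := fun _ : T => B) ((hτ v w).2 h) _ _)

theorem sgh_of (t : T) (b : B) : sgh Λ B z τ hτ (vo Λ B t b) = vo Λ B (τ t) (cB B (z t) b) := by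
  rw [sgh, glift_of]
  rfl

/-- its inverse -/
noncomputable def sgi : Gm Λ B →* Gm Λ B :=
  glift (fun t => (vo Λ B (τ⁻¹ t)).comp (cB B (z (τ⁻¹ t))⁻¹))
    (fun v w h a b => gcomm (A := fun _ : T => B) ((hτ _ _).1 (by
      show Λ.Adj (τ (τ.symm v)) (τ (τ.symm w))
      rw [Equiv.apply_symm_apply, Equiv.apply_symm_apply]
      exact h)) _ _)

theorem sgi_of (t : T) (b : B) : sgi Λ B z τ hτ (vo Λ B t b) =
    vo Λ B (τ⁻¹ t) (cB B (z (τ⁻¹ t))⁻¹ b) := by
  rw [sgi, glift_of]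
  rfl

theorem sgi_sgh (x : Gm Λ B) : sgi Λ B z τ hτ (sgh Λ B z τ hτ x) = x := by
  have h : (sgi Λ B z τ hτ).comp (sgh Λ B z τ hτ) = MonoidHom.id _ := by
    apply gext
    intro t b
    have h1 : τ⁻¹ (τ t) = t := τ.symm_apply_apply t
    rw [MonoidHom.comp_apply, sgh_of, sgi_of, cB_mul, h1, inv_mul_cancel,
      cB_one]
    rfl
  exact DFunLike.congr_fun h x

theorem sgh_sgi (x : Gm Λ B) : sgh Λ B z τ hτ (sgi Λ B z τ hτ x) = x := by
  have h : (sgh Λ B z τ hτ).comp (sgi Λ B z τ hτ) = MonoidHom.id _ := by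
    apply gext
    intro t b
    have h1 : τ (τ⁻¹ t) = t := τ.apply_symm_apply t
    rw [MonoidHom.comp_apply, sgi_of, sgh_of, cB_mul, h1, mul_inv_cancel,
      cB_one]
    rfl
  exact DFunLike.congr_fun h x

/-- the automorphism -/
noncomputable def sg : MulAut (Gm Λ B) where
  toFun := sgh Λ B z τ hτ
  invFun := sgi Λ B z τ hτ
  left_inv := sgi_sgh Λ B z τ hτ
  right_inv := sgh_sgi Λ B z τ hτ
  map_mul' := map_mul _

theorem sg_of (t : T) (b : B) : sg Λ B z τ hτ (vo Λ B t b) = vo Λ B (τ t) (cB B (z t) b) :=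
  sgh_of Λ B z τ hτ t b

/-- the mapping torus -/
abbrev PT : Type :=
  Gm Λ B ⋊[zpowersHom (MulAut (Gm Λ B)) (sg Λ B z τ hτ)] Multiplicative ℤ

/-- the stable letter -/
noncomputable def ze : PT Λ B z τ hτ := SemidirectProduct.inr (Multiplicative.ofAdd 1)

/-- the inclusion of the graph product -/
noncomputable def il : Gm Λ B →* PT Λ B z τ hτ := SemidirectProduct.inl

theorem ze_conj (x : Gm Λ B) : ze Λ B z τ hτ * il Λ B z τ hτ x * (ze Λ B z τ hτ)⁻¹ =
    il Λ B z τ hτ (sg Λ B z τ hτ x) := by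
  rw [ze, il, ← map_inv, ← SemidirectProduct.inl_aut, zpowersHom_apply]
  simp

/-- `g` conjugates the vertex group of `t` to the one of `t'` by means of `w` -/
def Rel (g : PT Λ B z τ hτ) (t t' : T) (w : D) : Prop :=
  ∀ b : B, g * il Λ B z τ hτ (vo Λ B t b) * g⁻¹ = il Λ B z τ hτ (vo Λ B t' (cB B w b))

variable {Λ B z τ hτ}

theorem Rel.mul {g g' : PT Λ B z τ hτ} {t t' t'' : T} {w w' : D} (h : Rel Λ B z τ hτ g t t' w)
    (h' : Rel Λ B z τ hτ g' t' t'' w') : Rel Λ B z τ hτ (g' * g) t t'' (w' * w) := by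
  intro b
  have h1 : g' * g * il Λ B z τ hτ (vo Λ B t b) * (g' * g)⁻¹ =
      g' * (g * il Λ B z τ hτ (vo Λ B t b) * g⁻¹) * g'⁻¹ := by group
  rw [h1, h, h', cB_mul]

theorem Rel.inv {g : PT Λ B z τ hτ} {t t' : T} {w : D} (h : Rel Λ B z τ hτ g t t' w) :
    Rel Λ B z τ hτ g⁻¹ t' t w⁻¹ := by
  intro b
  have h1 := h (cB B w⁻¹ b)
  rw [cB_mul, mul_inv_cancel, cB_one] at h1
  rw [← h1]
  group

theorem Rel.ze (t : T) : Rel Λ B z τ hτ (ze Λ B z τ hτ) t (τ t) (z t) := by
  intro b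
  rw [ze_conj, sg_of]

theorem Rel.one (t : T) : Rel Λ B z τ hτ 1 t t 1 := by
  intro b
  rw [cB_one]
  group

theorem Rel.pow (n : ℕ) (t : T) : ∃ w, Rel Λ B z τ hτ (U643.GP.ze Λ B z τ hτ ^ n) t ((τ ^ n) t) w := by
  induction n with
  | zero => exact ⟨1, by simpa using Rel.one t⟩
  | succ n ih =>
    obtain ⟨w, h⟩ := ih
    refine ⟨z ((τ ^ n) t) * w, ?_⟩
    rw [pow_succ', pow_succ', Equiv.Perm.mul_apply]
    exact h.mul (Rel.ze _)

theorem Rel.zpow (k : ℤ) (t : T) :
    ∃ w, Rel Λ B z τ hτ (U643.GP.ze Λ B z τ hτ ^ k) t ((τ ^ k) t) w := by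
  obtain ⟨n, rfl | rfl⟩ := k.eq_nat_or_neg
  · rw [zpow_natCast, zpow_natCast]
    exact Rel.pow n t
  · obtain ⟨w, h⟩ := Rel.pow (Λ := Λ) (B := B) (z := z) (hτ := hτ) n ((τ ^ (-(n : ℤ))) t)
    refine ⟨w⁻¹, ?_⟩
    have h1 := h.inv
    have h2 : (τ ^ n) ((τ ^ (-(n : ℤ))) t) = t := by
      rw [zpow_neg, zpow_natCast]
      exact (τ ^ n).apply_symm_apply t
    rw [h2] at h1
    rwa [zpow_neg, zpow_natCast]

theorem il_inj : Function.Injective (il Λ B z τ hτ) := SemidirectProduct.inl_injective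

theorem vo_inj (t : T) : Function.Injective (vo Λ B t) := by
  intro a b h
  have := congrArg (gvert Λ (fun _ : T => B) t) h
  rwa [gvert_of, gvert_of] at this

theorem ex_zpow (g : PT Λ B z τ hτ) : ∃ (x : Gm Λ B) (k : ℤ), g = il Λ B z τ hτ x *
    U643.GP.ze Λ B z τ hτ ^ k := by
  refine ⟨g.left, Multiplicative.toAdd g.right, ?_⟩
  have h1 : U643.GP.ze Λ B z τ hτ ^ (Multiplicative.toAdd g.right) =
      SemidirectProduct.inr g.right := by
    rw [U643.GP.ze, ← map_zpow]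
    congr 1
    show Multiplicative.ofAdd (1 : ℤ) ^ (Multiplicative.toAdd g.right) = g.right
    rw [← ofAdd_zsmul]
    simp
  rw [h1]
  exact (SemidirectProduct.inl_left_mul_inr_right g).symm

variable (Λ B z τ hτ)

/-- the vertex subgroups -/
noncomputable def At (t : T) : Subgroup (PT Λ B z τ hτ) :=
  ((il Λ B z τ hτ).comp (vo Λ B t)).range

/-- the kernel -/
noncomputable def Nt : Subgroup (PT Λ B z τ hτ) := (il Λ B z τ hτ).range

variable {Λ B z τ hτ}

theorem mem_At {t : T} {x : PT Λ B z τ hτ} : x ∈ At Λ B z τ hτ t ↔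
    ∃ b : B, x = il Λ B z τ hτ (vo Λ B t b) :=
  ⟨fun ⟨b, hb⟩ => ⟨b, hb.symm⟩, fun ⟨b, hb⟩ => ⟨b, hb.symm⟩⟩

instance Nt_normal : (Nt Λ B z τ hτ).Normal := by
  rw [Nt, il, SemidirectProduct.range_inl_eq_ker_rightHom]
  infer_instance

theorem Rel.maps {g : PT Λ B z τ hτ} {t t' : T} {w : D} (h : Rel Λ B z τ hτ g t t' w) :
    Maps g (At Λ B z τ hτ t) (At Λ B z τ hτ t') := by
  intro x
  rw [mem_At, mem_At]
  constructor
  · rintro ⟨b, rfl⟩
    exact ⟨cB B w b, h b⟩
  · rintro ⟨b, hb⟩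
    refine ⟨cB B w⁻¹ b, ?_⟩
    rw [← h.inv b, ← hb]
    group

theorem gprod : GProd Λ (At Λ B z τ hτ) (Nt Λ B z τ hτ) where
  le := by
    rintro t x hx
    obtain ⟨b, rfl⟩ := mem_At.1 hx
    exact ⟨_, rfl⟩
  gen := by
    intro M hM
    rintro _ ⟨x, rfl⟩
    obtain ⟨f, hf⟩ : ∃ f : Gm Λ B →* (⊤ : Subgroup (PT Λ B z τ hτ)), ∀ x, (f x).1 =
        il Λ B z τ hτ x := ⟨(il Λ B z τ hτ).codRestrict ⊤ (fun _ => Subgroup.mem_top _), fun _ => rfl⟩
    have h1 : (⊤ : Subgroup (Gm Λ B)) ≤ M.comap (il Λ B z τ hτ) := by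
      have h2 : (⊤ : Subgroup (Gm Λ B)) = Subgroup.closure {x | ∃ t, ∃ b : B, x = vo Λ B t b} := by
        symm
        rw [Subgroup.eq_top_iff']
        obtain ⟨S, hS⟩ : ∃ S, S = Subgroup.closure {x | ∃ t, ∃ b : B, x = vo Λ B t b} := ⟨_, rfl⟩
        rw [← hS]
        have h3 : ∀ t (b : B), vo Λ B t b ∈ S := by
          intro t b
          rw [hS]
          exact Subgroup.subset_closure ⟨t, b, rfl⟩
        let r : Gm Λ B →* S := glift (fun t => (vo Λ B t).codRestrict S (fun b => h3 t b)) (by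
          intro v w h a b
          apply Subtype.ext
          exact gcomm (A := fun _ : T => B) h a b)
        have h4 : S.subtype.comp r = MonoidHom.id _ := by
          apply gext
          intro t b
          rw [MonoidHom.comp_apply, glift_of]
          rfl
        intro x
        have h5 := DFunLike.congr_fun h4 x
        have h6 : ((r x : S) : Gm Λ B) = x := h5
        rw [← h6]
        exact (r x).2
      rw [h2, Subgroup.closure_le]
      rintro _ ⟨t, b, rfl⟩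
      exact hM t (mem_At.2 ⟨b, rfl⟩)
    exact h1 (Subgroup.mem_top x)
  comm := by
    intro v w h a ha b hb
    obtain ⟨a, rfl⟩ := mem_At.1 ha
    obtain ⟨b, rfl⟩ := mem_At.1 hb
    rw [← map_mul, ← map_mul, gcomm h]
  univ := by
    intro H _ f hf
    let φ' : Gm Λ B →* H := glift (fun t => (f t).comp
      (MonoidHom.mk' (fun b => (⟨il Λ B z τ hτ (vo Λ B t b), mem_At.2 ⟨b, rfl⟩⟩ :
        At Λ B z τ hτ t)) (by
          intro a b
          apply Subtype.ext
          show il Λ B z τ hτ (vo Λ B t (a * b)) = _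
          rw [map_mul, map_mul]
          rfl)))
      (fun v w h a b => hf v w h _ _)
    let e : Gm Λ B ≃* Nt Λ B z τ hτ := MonoidHom.ofInjective il_inj
    refine ⟨φ'.comp e.symm.toMonoidHom, ?_⟩
    rintro v ⟨a, ha⟩
    obtain ⟨b, rfl⟩ := mem_At.1 ha
    have h1 : e.symm ⟨il Λ B z τ hτ (vo Λ B v b), ⟨vo Λ B v b, rfl⟩⟩ = vo Λ B v b := by
      rw [MulEquiv.symm_apply_eq]
      rfl
    have h2 : φ' (vo Λ B v b) = f v ⟨il Λ B z τ hτ (vo Λ B v b), ha⟩ := by
      show glift _ _ _ = _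
      rw [glift_of]
      rfl
    exact (congrArg φ' h1).trans h2

/-- **the mapping torus is in the class** -/
theorem main (hF : ClosedF C) [Finite T] (hD : C D) : C (PT Λ B z τ hτ) := by
  classical
  have hC := hF.base
  have hQ : C (PT Λ B z τ hτ ⧸ Nt Λ B z τ hτ) := by
    have h1 : Nt Λ B z τ hτ = (SemidirectProduct.rightHom :
        PT Λ B z τ hτ →* Multiplicative ℤ).ker := by
      rw [Nt, il, SemidirectProduct.range_inl_eq_ker_rightHom]
    have h2 := (QuotientGroup.quotientKerEquivOfSurjective (SemidirectProduct.rightHom :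
        PT Λ B z τ hτ →* Multiplicative ℤ) SemidirectProduct.rightHom_surjective)
    have h3 : C (PT Λ B z τ hτ ⧸ (SemidirectProduct.rightHom :
        PT Λ B z τ hτ →* Multiplicative ℤ).ker) :=
      hC.base.of_injective _ _ h2.toMonoidHom h2.injective hC.base.int
    refine hC.base.of_injective _ _ (QuotientGroup.quotientMulEquivOfEq h1).toMonoidHom
      (QuotientGroup.quotientMulEquivOfEq h1).injective h3
  by_cases hBt : B = ⊥
  · -- the graph product is trivial
    have h1 : (MonoidHom.id (Gm Λ B)) = 1 := by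
      apply gext
      intro t b
      have hb : b = 1 := by
        apply Subtype.ext
        have h0 : ∀ c : D, c ∈ B → c = 1 := by
          intro c hc
          rw [hBt, Subgroup.mem_bot] at hc
          exact hc
        exact h0 b b.2
      rw [hb, map_one, map_one, map_one]
    refine hC.base.of_injective _ (Multiplicative ℤ) (SemidirectProduct.rightHom :
        PT Λ B z τ hτ →* Multiplicative ℤ) ?_ hC.base.int
    intro x y hxy
    apply SemidirectProduct.ext
    · have h2 := DFunLike.congr_fun h1 x.left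
      have h3 := DFunLike.congr_fun h1 y.left
      exact h2.trans h3.symm
    · exact hxy
  · have hne : ∀ t, At Λ B z τ hτ t ≠ ⊥ := by
      intro t h
      apply hBt
      rw [eq_bot_iff]
      intro b hb
      have h1 : il Λ B z τ hτ (vo Λ B t ⟨b, hb⟩) ∈ At Λ B z τ hτ t := mem_At.2 ⟨_, rfl⟩
      rw [h, Subgroup.mem_bot] at h1
      have h2 : vo Λ B t ⟨b, hb⟩ = 1 := il_inj (by rw [h1, map_one])
      have h3 : (⟨b, hb⟩ : B) = 1 := vo_inj t (by rw [h2, map_one])
      rw [Subgroup.mem_bot]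
      exact congrArg Subtype.val h3
    have hmv : ∀ (x : Gm Λ B) (k : ℤ) (t : T), Mv (Nt Λ B z τ hτ)
        (il Λ B z τ hτ x * U643.GP.ze Λ B z τ hτ ^ k) (At Λ B z τ hτ t)
          (At Λ B z τ hτ ((τ ^ k) t)) := by
      intro x k t
      refine ⟨(il Λ B z τ hτ x)⁻¹, inv_mem ⟨x, rfl⟩, ?_⟩
      rw [inv_mul_cancel_left]
      obtain ⟨w, hw⟩ := Rel.zpow (Λ := Λ) (B := B) (z := z) (hτ := hτ) k t
      exact hw.maps
    have hyp : Hyp C Λ (At Λ B z τ hτ) (Nt Λ B z τ hτ) := by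
      refine ⟨gprod, hne, ?_, ?_⟩
      · intro g t
        obtain ⟨x, k, rfl⟩ := ex_zpow g
        exact ⟨_, hmv x k t⟩
      · intro t g hg
        obtain ⟨x, k, rfl⟩ := ex_zpow g
        have h1 : Mv (Nt Λ B z τ hτ) (il Λ B z τ hτ x * U643.GP.ze Λ B z τ hτ ^ k)
            (At Λ B z τ hτ t) (At Λ B z τ hτ t) := ⟨1, one_mem _, by rwa [one_mul]⟩
        have h2 : (τ ^ k) t = t := Mv.eq gprod hne (hmv x k t) h1
        obtain ⟨w, hw⟩ := Rel.zpow (Λ := Λ) (B := B) (z := z) (hτ := hτ) k t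
        rw [h2] at hw
        obtain ⟨r, hr⟩ : ∃ r : B, r = gvert Λ (fun _ : T => B) t x := ⟨_, rfl⟩
        -- the homomorphism to `D`
        let e : Gm Λ B ≃* Nt Λ B z τ hτ := MonoidHom.ofInjective il_inj
        have hle : At Λ B z τ hτ t ≤ Nt Λ B z τ hτ := gprod.le t
        let f : At Λ B z τ hτ t →* D := B.subtype.comp ((gvert Λ (fun _ : T => B) t).comp
          (e.symm.toMonoidHom.comp (Subgroup.inclusion hle)))
        have hf : ∀ (b : B) (hb : il Λ B z τ hτ (vo Λ B t b) ∈ At Λ B z τ hτ t),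
            f ⟨_, hb⟩ = b := by
          intro b hb
          have h3 : e.symm ⟨il Λ B z τ hτ (vo Λ B t b), hle hb⟩ = vo Λ B t b := by
            rw [MulEquiv.symm_apply_eq]
            rfl
          show ((gvert Λ (fun _ : T => B) t (e.symm ⟨il Λ B z τ hτ (vo Λ B t b), hle hb⟩) : B) : D) = b
          rw [h3]
          have h4 := gvert_of (Λ := Λ) (A := fun _ : T => B) t b
          exact congrArg Subtype.val h4
        refine ⟨D, inferInstance, f, r * w, hD, ?_, ?_⟩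
        · rintro ⟨a, ha⟩ ⟨a', ha'⟩ hab
          obtain ⟨b, rfl⟩ := mem_At.1 ha
          obtain ⟨b', rfl⟩ := mem_At.1 ha'
          rw [hf, hf] at hab
          have h3 : b = b' := Subtype.ext hab
          subst h3
          rfl
        · rintro ⟨a, ha⟩ ⟨a', ha'⟩ hab
          obtain ⟨b, rfl⟩ := mem_At.1 ha
          obtain ⟨b', rfl⟩ := mem_At.1 ha'
          rw [hf, hf]
          have h3 : il Λ B z τ hτ (vo Λ B t b') = il Λ B z τ hτ (x * vo Λ B t (cB B w b) * x⁻¹) := by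
            have h4 : (il Λ B z τ hτ (vo Λ B t b') : PT Λ B z τ hτ) =
              il Λ B z τ hτ x * U643.GP.ze Λ B z τ hτ ^ k * il Λ B z τ hτ (vo Λ B t b) *
                (il Λ B z τ hτ x * U643.GP.ze Λ B z τ hτ ^ k)⁻¹ := hab
            rw [h4, map_mul, map_mul, map_inv, ← hw b]
            group
          have h5 := congrArg (gvert Λ (fun _ : T => B) t) (il_inj h3)
          rw [gvert_of, map_mul, map_mul, map_inv, gvert_of, ← hr] at h5
          rw [h5]
          show (r : D) * (w * b * w⁻¹) * (r : D)⁻¹ = _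
          group
    refine gpk_main hF hyp hQ ?_
    intro g t
    refine ⟨orderOf τ, orderOf_pos τ, ?_⟩
    intro m w hm hadj
    -- the power acts trivially on the vertices
    have hex : ∀ n : ℤ, ∃ y : Gm Λ B, ∀ (j : ℤ), (τ ^ j = 1 → True) := fun n => ⟨1, fun _ _ => trivial⟩
    obtain ⟨x, k, hg⟩ := ex_zpow g
    have h1 : ∀ n : ℕ, ∃ y : Gm Λ B, g ^ n = il Λ B z τ hτ y * U643.GP.ze Λ B z τ hτ ^ (k * n) := by
      intro n
      induction n with
      | zero => exact ⟨1, by simp⟩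
      | succ n ih =>
        obtain ⟨y, hy⟩ := ih
        obtain ⟨y', hy'⟩ : ∃ y', (U643.GP.ze Λ B z τ hτ ^ (k * n)) * il Λ B z τ hτ x *
            (U643.GP.ze Λ B z τ hτ ^ (k * n))⁻¹ = il Λ B z τ hτ y' := by
          have h2 : (U643.GP.ze Λ B z τ hτ ^ (k * n)) * il Λ B z τ hτ x *
            (U643.GP.ze Λ B z τ hτ ^ (k * n))⁻¹ ∈ Nt Λ B z τ hτ :=
            Nt_normal.conj_mem _ ⟨x, rfl⟩ _
          obtain ⟨y', hy'⟩ := h2
          exact ⟨y', hy'.symm⟩
        refine ⟨y * y', ?_⟩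
        rw [pow_succ, hy, map_mul, ← hy', hg]
        have h3 : (k * ((n + 1 : ℕ) : ℤ)) = k * n + k := by push_cast; ring
        rw [h3, zpow_add]
        group
    have h2 : ∀ n : ℤ, ∃ y : Gm Λ B, g ^ n = il Λ B z τ hτ y * U643.GP.ze Λ B z τ hτ ^ (k * n) := by
      intro n
      obtain ⟨n, rfl | rfl⟩ := n.eq_nat_or_neg
      · rw [zpow_natCast]
        exact h1 n
      · obtain ⟨y, hy⟩ := h1 n
        obtain ⟨y', hy'⟩ : ∃ y', (U643.GP.ze Λ B z τ hτ ^ (k * n))⁻¹ * (il Λ B z τ hτ y)⁻¹ *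
            (U643.GP.ze Λ B z τ hτ ^ (k * n)) = il Λ B z τ hτ y' := by
          have h3 : (U643.GP.ze Λ B z τ hτ ^ (k * n))⁻¹ * (il Λ B z τ hτ y)⁻¹ *
            (U643.GP.ze Λ B z τ hτ ^ (k * n))⁻¹⁻¹ ∈ Nt Λ B z τ hτ :=
            Nt_normal.conj_mem _ (inv_mem ⟨y, rfl⟩) _
          obtain ⟨y', hy'⟩ := h3
          rw [inv_inv] at hy'
          exact ⟨y', hy'.symm⟩
        refine ⟨y', ?_⟩
        rw [← hy', zpow_neg, zpow_natCast, hy]
        have h3 : k * (-(n : ℤ)) = -(k * n) := by ring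
        rw [h3, zpow_neg]
        group
    obtain ⟨y, hy⟩ := h2 ((orderOf τ : ℤ) * m)
    rw [hy] at hm
    have h3 := hmv y (k * ((orderOf τ : ℤ) * m)) t
    have h4 : (τ ^ (k * ((orderOf τ : ℤ) * m))) t = t := by
      have h5 : k * ((orderOf τ : ℤ) * m) = (orderOf τ : ℤ) * (k * m) := by ring
      rw [h5, zpow_mul, zpow_natCast, pow_orderOf_eq_one, one_zpow]
      rfl
    rw [h4] at h3
    have h5 := Mv.eq gprod hne hm h3
    rw [h5] at hadj
    exact Λ.irrefl hadj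

end tw

end Pool.Agent.U643.GP
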